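import Mathlib
import Pool.Agent.H60.PrimeWalkRun

namespace Pool.Agent.Results.MP_69d63a_nt.Positive

open Pool.Agent.H60.PrimeWalk

/-- The score of the tug of war between increasing and decreasing prime gaps is positive at some
`n > 250000` (namely at `n = 261150`, where it equals `1`). -/
theorem result : ∃ n : ℕ, 250000 < n ∧ 0 < score n := by
  refine ⟨261150, by norm_num, ?_⟩
  have h := inv_final.decode (by norm_num)
  norm_num at h
  rw [h]
  norm_num

end Pool.Agent.Results.MP_69d63a_nt.Positive
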